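import Pool.Agent.Lib.MP_6a3dac_ag.Fam.GLDefs
import Pool.Agent.Lib.MP_6a3dac_ag.QuadricModel

/-!
# Families which are logarithmically smooth over the base
-/

set_option autoImplicit false

namespace Pool.Agent.Lib.MP_6a3dac_ag.LS

open MvPolynomial CategoryTheory Limits AlgebraicGeometry NumberField IsDedekindDomain
open Pool.Agent.Lib.MP_6a3dac_ag.DNF Pool.Agent.Lib.MP_6a3dac_ag.Bert
open Pool.Agent.Lib.MP_6a3dac_ag.Fam

section Local

variable {R σ : Type} [CommRing R] [DecidableEq σ] {l s : ℕ}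

/-- Where `U.s` does not vanish, the ideal `J` is generated by the equations of the chart `U` and
the polynomials `F j`. -/
structure IsPresL (J : Ideal (MvPolynomial σ R)) (U : Std R σ)
    (F : Fin l → MvPolynomial σ R) : Prop where
  mem : ∀ κ, U.g κ ∈ J
  memF : ∀ j, F j ∈ J
  le : ∀ f ∈ J, U.s * f ∈ Ideal.span (Set.range F ∪ Set.range U.g)

variable [Fintype σ]

/-- The logarithmic differentials of the functions `(w j / u j) * ∏ g i ^ e j i` and the
differentials of the `g i` which vanish at the point `𝔮` are linearly independent: there are no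
nontrivial relations modulo `𝔮`
`∑ b j * (w j * u j * ∑ e j i * (d g i / g i) + u j * d w j - w j * d u j) +
  ∑ c i * (d g i - g i * (d g i / g i)) = 0`
with independent symbols `d g i / g i`. -/
def LogInd (U : Std R σ) (e : Fin l → Fin s → ℕ) (w u : Fin l → MvPolynomial σ R)
    (g : Fin s → MvPolynomial σ R) (𝔮 : Ideal (MvPolynomial σ R)) : Prop :=
  ∀ (b : Fin l → MvPolynomial σ R) (c : Fin s → MvPolynomial σ R),
    (∀ i, ∑ j, b j * (w j * u j * (e j i : MvPolynomial σ R)) - c i * g i ∈ 𝔮) →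
    (∀ t ∈ U.T, ∑ j, b j * (u j * U.vf t (w j) - w j * U.vf t (u j)) +
      ∑ i, c i * U.vf t (g i) ∈ 𝔮) → (∀ j, b j ∈ 𝔮) ∧ ∀ i, c i ∈ 𝔮

/-- The scheme defined by `J` is at the point `𝔮` logarithmically smooth over the ring `R` with the
elements `h j`: near this point it is defined in a smooth scheme of relative dimension `m + l` by
the equations `w j * ∏ g i ^ e j i = u j * h j` with units `w j`, `u j`; the ideals `K i` are
`(J, g i)`; and `LogInd` holds. -/
def LogPt (m : ℕ) (e : Fin l → Fin s → ℕ) (h : Fin l → R) (J : Ideal (MvPolynomial σ R))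
    (K : Fin s → Ideal (MvPolynomial σ R)) (𝔮 : Ideal (MvPolynomial σ R)) : Prop :=
  ∃ (U : Std R σ) (F w u : Fin l → MvPolynomial σ R) (g : Fin s → MvPolynomial σ R),
    IsPresL J U F ∧ U.T.card = m + l ∧ U.h ∉ 𝔮 ∧
    (∀ j, F j = w j * ∏ i, g i ^ e j i - u j * C (h j) ∧ w j ∉ 𝔮 ∧ u j ∉ 𝔮) ∧
    (∀ i, g i ∈ K i ∧ ∃ a, a ∉ 𝔮 ∧ ∀ f ∈ K i, a * f ∈ J ⊔ Ideal.span {g i}) ∧
    LogInd U e w u g 𝔮

end Local

section Family

variable {R : Type} [CommRing R] {m c l s : ℕ}

/-- At all points whose residue characteristic is not in the set `T` of prime numbers the family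
over `R` defined by `J` is logarithmically smooth over `R` with the elements `h j`; each of the
divisors defined by the ideals `K i` lies over the zeros of one of the `h j`. -/
def LogSmooth (T : Set ℕ) (J : HomIdeal R (m + c + 1)) (e : Fin l → Fin s → ℕ) (h : Fin l → R)
    (K : Fin s → HomIdeal R (m + c + 1)) : Prop :=
  (∀ i, ∃ j, 0 < e j i ∧ C (h j) ∈ (K i).ideal) ∧
  ∀ (i : Fin (m + c + 1)) (𝔮 : Ideal (MvPolynomial {l : Fin (m + c + 1) // l ≠ i} R)),
    𝔮.IsPrime → dId J i ≤ 𝔮 →
    (∀ p ∈ T, p.Prime → (p : MvPolynomial {l : Fin (m + c + 1) // l ≠ i} R) ∉ 𝔮) →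
      LogPt m e h (dId J i) (fun k => dId (K k) i) 𝔮

/-- The morphism `π` is the fibre over `E` of the family at a point of the base over the local ring
of `𝓞 E` at `P` at which the elements `h j` are not zero. -/
def IsMember {E : Type} [Field E] [NumberField E] (P : HeightOneSpectrum (𝓞 E)) {n : ℕ}
    (J : HomIdeal R (n + 1)) (h : Fin l → R) {X : Scheme.{0}}
    (π : X ⟶ Spec (CommRingCat.of E)) : Prop :=
  ∃ a : R →+* locRing E P, (∀ j, a (h j) ≠ 0) ∧
    ∃ e : hProj (bc ((algebraMap (locRing E P) E).comp a) J) ≅ X,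
      e.hom ≫ π = hProjTo (bc ((algebraMap (locRing E P) E).comp a) J)

end Family

end Pool.Agent.Lib.MP_6a3dac_ag.LS
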