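import Pool.Agent.Lib.MP_6a3dac_ag.Mg.G058
import Pool.Agent.Lib.MP_6a3dac_ag.Mg.G025

/-!
# The kernel of the toric chart
-/

set_option autoImplicit false

namespace Pool.Agent.Lib.MP_6a3dac_ag.LS

open MvPolynomial
open Pool.Agent.Lib.MP_6a3dac_ag.DNF Pool.Agent.Lib.MP_6a3dac_ag.Bert
open Pool.Agent.Lib.MP_6a3dac_ag.Fam Pool.Agent.Lib.MP_6a3dac_ag.Tor

section Mono

variable {Q : Type} [CommRing Q] {s l : ℕ}

/-- The monomials in the `G i` and `P` in terms of the coordinates of the chart. -/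
theorem l3c_mono {r : ℕ} (y : Fin r → Q) (A : Fin r → Fin s → ℕ) (β : Fin r → ℕ)
    (G : Fin s → Q) (P : Q) (hG : ∀ i, G i = ∏ ρ, y ρ ^ A ρ i)
    (hP : P = ∏ ρ, y ρ ^ β ρ) (n : Fin s → ℕ) (n₀ : ℕ) :
    (∏ i, G i ^ n i) * P ^ n₀ = ∏ ρ, y ρ ^ (∑ i, A ρ i * n i + β ρ * n₀) := by
  have h1 : ∏ i, G i ^ n i = ∏ ρ, y ρ ^ (∑ i, A ρ i * n i) := by
    have h2 : ∀ i, G i ^ n i = ∏ ρ, y ρ ^ (A ρ i * n i) := by
      intro i
      rw [hG, ← Finset.prod_pow]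
      simp only [← pow_mul]
    simp only [h2]
    rw [Finset.prod_comm]
    simp only [Finset.prod_pow_eq_pow_sum]
  have h3 : P ^ n₀ = ∏ ρ, y ρ ^ (β ρ * n₀) := by
    rw [hP, ← Finset.prod_pow]
    simp only [← pow_mul]
  rw [h1, h3]
  simp only [pow_add, Finset.prod_mul_distrib]

/-- The coordinate `y ρ` is a quotient of monomials in the `G i` and `P`. -/
theorem l3c_y {t : LChart s} {e : Fin l → Fin s → ℕ} {v : Fin l → ℕ}
    {𝒢 : Finset ((Fin s → ℕ) × ℕ)} (ht : t.IsFor e v 𝒢) (y : Fin (s + 1) → Q) (G : Fin s → Q)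
    (P : Q) (hG : ∀ i, G i = ∏ ρ, y ρ ^ t.A ρ i) (hP : P = ∏ ρ, y ρ ^ t.β ρ) (ρ : Fin (s + 1)) :
    ((∏ i, G i ^ (-t.B ρ i).toNat) * P ^ (-t.B₀ ρ).toNat) * y ρ =
      (∏ i, G i ^ (t.B ρ i).toNat) * P ^ (t.B₀ ρ).toNat := by
  classical
  rw [l3c_mono y t.A t.β G P hG hP, l3c_mono y t.A t.β G P hG hP]
  have hnat : ∀ z : ℤ, ((z.toNat : ℕ) : ℤ) - (((-z).toNat : ℕ) : ℤ) = z := fun z => by omega
  have h4 : ∀ ρ', ∑ i, t.A ρ' i * (-t.B ρ i).toNat + t.β ρ' * (-t.B₀ ρ).toNat +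
      (if ρ' = ρ then 1 else 0) =
      ∑ i, t.A ρ' i * (t.B ρ i).toNat + t.β ρ' * (t.B₀ ρ).toNat := by
    intro ρ'
    have h2 := ht.dual₁ ρ' ρ
    zify
    rw [← h2]
    have h3 : ∑ i, (t.A ρ' i : ℤ) * (((t.B ρ i).toNat : ℕ) : ℤ) =
        ∑ i, (t.A ρ' i : ℤ) * (((-t.B ρ i).toNat : ℕ) : ℤ) + ∑ i, (t.A ρ' i : ℤ) * t.B ρ i := by
      rw [← Finset.sum_add_distrib]
      refine Finset.sum_congr rfl fun i _ => ?_
      linear_combination (t.A ρ' i : ℤ) * hnat (t.B ρ i)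
    rw [h3]
    linear_combination -(t.β ρ' : ℤ) * hnat (t.B₀ ρ)
  have h5 : y ρ = ∏ ρ', y ρ' ^ (if ρ' = ρ then 1 else 0) := by
    simp only [pow_ite, pow_one, pow_zero, Finset.prod_ite_eq', Finset.mem_univ, if_true]
  rw [h5, ← Finset.prod_mul_distrib]
  refine Finset.prod_congr rfl fun ρ' _ => ?_
  rw [← pow_add, h4]

end Mono

variable {O σ D : Type} [CommRing O] [DecidableEq σ] [Fintype σ] [CommRing D] [IsDomain D]
  {s l : ℕ}

/-- TASK L3c -/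
theorem logEqs_ker {U : Std O σ} {g : Fin s → MvPolynomial σ O}
    {w u F : Fin l → MvPolynomial σ O} {ϖ : O} {t : LChart s} {e : Fin l → Fin s → ℕ}
    {v : Fin l → ℕ} {𝒢 : Finset ((Fin s → ℕ) × ℕ)} (ht : t.IsFor e v 𝒢)
    {J : Ideal (MvPolynomial σ O)} (hpres : IsPresL J U F)
    (hF : ∀ j, F j = w j * ∏ i, g i ^ e j i - u j * C (ϖ ^ v j))
    (δ : MvPolynomial (σ ⊕ Fin (s + 1)) O →+* D) (hδ : ∀ k, δ (logEqs U g w u ϖ e v t k) = 0)
    (hg : ∀ i, δ (lup (g i)) ≠ 0) (hϖ : δ (C ϖ) ≠ 0) (hs : δ (lup U.s) ≠ 0)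
    (hker : ∀ f : MvPolynomial σ O, δ (lup f) = 0 → ∃ τ, δ (lup τ) ≠ 0 ∧ τ * f ∈ J)
    (p : MvPolynomial (σ ⊕ Fin (s + 1)) O) (hp : δ p = 0) :
    ∃ τ, δ τ ≠ 0 ∧ τ * p ∈ Ideal.span (Set.range (logEqs U g w u ϖ e v t)) := by
  classical
  set Ig := Ideal.span (Set.range (logEqs U g w u ϖ e v t)) with hIg
  have hmem : ∀ k, logEqs U g w u ϖ e v t k ∈ Ig := fun k => Ideal.subset_span ⟨k, rfl⟩
  let π := Ideal.Quotient.mk Ig
  have hπ : ∀ k, π (logEqs U g w u ϖ e v t k) = 0 := fun k => Ideal.Quotient.eq_zero_iff_mem.2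
    (hmem k)
  have hG : ∀ i, π (lup (g i)) = ∏ ρ, π (lyv ρ) ^ t.A ρ i := by
    intro i
    have h1 := hπ (Sum.inr (Sum.inl i))
    simp only [logEqs, Sum.elim_inr, Sum.elim_inl, map_sub, map_pow, map_prod] at h1
    exact sub_eq_zero.1 h1
  have hP : π (C ϖ) = ∏ ρ, π (lyv ρ) ^ t.β ρ := by
    have h1 := hπ (Sum.inr (Sum.inr (Sum.inl ())))
    simp only [logEqs, Sum.elim_inr, Sum.elim_inl, map_sub, map_pow, map_prod] at h1
    exact sub_eq_zero.1 h1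
  have hW : ∀ j, π (lup (w j)) * ∏ ρ, π (lyv ρ) ^ (∑ i, e j i * t.A ρ i - v j * t.β ρ) =
      π (lup (u j)) * ∏ ρ, π (lyv ρ) ^ (v j * t.β ρ - ∑ i, e j i * t.A ρ i) := by
    intro j
    have h1 := hπ (Sum.inr (Sum.inr (Sum.inr j)))
    simp only [logEqs, Sum.elim_inr, map_sub, map_mul, map_pow, map_prod] at h1
    exact sub_eq_zero.1 h1
  have hupC : ∀ a : O, (lup (C a) : MvPolynomial (σ ⊕ Fin (s + 1)) O) = C a := fun a =>
    rename_C _ _
  -- the monomials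
  obtain ⟨mo, hmo⟩ : ∃ mo : (Fin s → ℕ) → ℕ → MvPolynomial σ O,
    ∀ n n₀, mo n n₀ = (∏ i, g i ^ n i) * C ϖ ^ n₀ := ⟨_, fun _ _ => rfl⟩
  have hmoπ : ∀ n n₀, π (lup (mo n n₀)) = (∏ i, π (lup (g i)) ^ n i) * π (C ϖ) ^ n₀ := by
    intro n n₀
    rw [hmo]
    simp only [map_mul, map_prod, map_pow, hupC]
  have hmoadd : ∀ n n₀ n' n₀', π (lup (mo (fun i => n i + n' i) (n₀ + n₀'))) =
      π (lup (mo n n₀)) * π (lup (mo n' n₀')) := by
    intro n n₀ n' n₀'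
    rw [hmoπ, hmoπ, hmoπ]
    simp only [pow_add, Finset.prod_mul_distrib]
    ring
  -- every polynomial is a quotient modulo the equations
  have key : ∀ p : MvPolynomial (σ ⊕ Fin (s + 1)) O, ∃ (n : Fin s → ℕ) (n₀ : ℕ)
      (f : MvPolynomial σ O), π (lup (mo n n₀)) * π p = π (lup f) := by
    intro p
    induction p using MvPolynomial.induction_on with
    | C a =>
      refine ⟨0, 0, C a, ?_⟩
      rw [hmoπ, hupC]
      simp
    | add p q hp hq =>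
      obtain ⟨n, n₀, f, h1⟩ := hp
      obtain ⟨n', n₀', f', h2⟩ := hq
      refine ⟨fun i => n i + n' i, n₀ + n₀', mo n' n₀' * f + mo n n₀ * f', ?_⟩
      rw [hmoadd]
      simp only [map_add, map_mul]
      linear_combination π (lup (mo n' n₀')) * h1 + π (lup (mo n n₀)) * h2
    | mul_X p j hp =>
      obtain ⟨n, n₀, f, h1⟩ := hp
      rcases j with k | ρ
      · refine ⟨n, n₀, f * X k, ?_⟩
        have h2 : (lup (X k) : MvPolynomial (σ ⊕ Fin (s + 1)) O) = X (Sum.inl k) :=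
          rename_X _ _
        rw [map_mul, map_mul, map_mul, h2]
        linear_combination π (X (Sum.inl k)) * h1
      · have h2 := l3c_y ht (fun ρ => π (lyv ρ)) (fun i => π (lup (g i))) (π (C ϖ)) hG hP ρ
        rw [← hmoπ, ← hmoπ] at h2
        refine ⟨fun i => n i + (-t.B ρ i).toNat, n₀ + (-t.B₀ ρ).toNat,
          f * mo (fun i => (t.B ρ i).toNat) (t.B₀ ρ).toNat, ?_⟩
        rw [hmoadd, map_mul, map_mul, map_mul, ← h2]
        change _ * (π p * π (lyv ρ)) = _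
        linear_combination π (lup (mo (fun i => (-t.B ρ i).toNat) (-t.B₀ ρ).toNat)) *
          π (lyv ρ) * h1
  -- the equations `F`
  have hFI : ∀ j, π (lup (F j)) = 0 := by
    intro j
    have h1 := l3c_mono (fun ρ => π (lyv ρ)) t.A t.β (fun i => π (lup (g i))) (π (C ϖ)) hG hP
      (e j) 0
    have h2 := l3c_mono (fun ρ => π (lyv ρ)) t.A t.β (fun i => π (lup (g i))) (π (C ϖ)) hG hP
      (fun _ => 0) (v j)
    simp only [pow_zero, Finset.prod_const_one, one_mul, mul_zero, Finset.sum_const_zero,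
      zero_add, add_zero, mul_one] at h1 h2
    have h3 : ∀ ρ, ∑ i, t.A ρ i * e j i = ∑ i, e j i * t.A ρ i := fun ρ =>
      Finset.sum_congr rfl fun i _ => mul_comm _ _
    have h4 : ∏ ρ, π (lyv ρ) ^ (∑ i, t.A ρ i * e j i) =
        (∏ ρ, π (lyv ρ) ^ (∑ i, e j i * t.A ρ i - v j * t.β ρ)) *
          ∏ ρ, π (lyv ρ) ^ (min (∑ i, e j i * t.A ρ i) (v j * t.β ρ)) := by
      rw [← Finset.prod_mul_distrib]
      refine Finset.prod_congr rfl fun ρ _ => ?_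
      rw [← pow_add, h3]
      congr 1
      omega
    have h5 : ∏ ρ, π (lyv ρ) ^ (t.β ρ * v j) =
        (∏ ρ, π (lyv ρ) ^ (v j * t.β ρ - ∑ i, e j i * t.A ρ i)) *
          ∏ ρ, π (lyv ρ) ^ (min (∑ i, e j i * t.A ρ i) (v j * t.β ρ)) := by
      rw [← Finset.prod_mul_distrib]
      refine Finset.prod_congr rfl fun ρ _ => ?_
      rw [← pow_add, mul_comm (t.β ρ)]
      congr 1
      omega
    rw [hF, map_sub, map_mul, map_mul, map_prod, hupC, map_sub, map_mul, map_mul, map_prod, C_pow,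
      map_pow]
    simp only [map_pow]
    rw [h1, h2, h4, h5, ← mul_assoc, ← mul_assoc, hW, sub_self]
  have hle : ∀ f ∈ J, lup (U.s * f) ∈ Ig := by
    intro f hf
    have h1 := hpres.le f hf
    have h2 : Ideal.span (Set.range F ∪ Set.range U.g) ≤ Ig.comap (lup : _ →ₐ[O] _) := by
      rw [Ideal.span_le]
      rintro x (⟨j, rfl⟩ | ⟨κ, rfl⟩)
      · have h3 : lup (F j) ∈ Ig := Ideal.Quotient.eq_zero_iff_mem.1 (hFI j)
        exact h3
      · exact hmem (Sum.inl κ)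
    exact h2 h1
  obtain ⟨n, n₀, f, hf⟩ := key p
  have hδI : ∀ x ∈ Ig, δ x = 0 := by
    intro x hx
    have h1 : Ig ≤ RingHom.ker δ := by
      rw [hIg, Ideal.span_le]
      rintro _ ⟨k, rfl⟩
      exact hδ k
    exact h1 hx
  have hf' : lup (mo n n₀) * p - lup f ∈ Ig := by
    rw [← Ideal.Quotient.eq_zero_iff_mem, map_sub, map_mul]
    exact sub_eq_zero.2 hf
  have hδf : δ (lup f) = 0 := by
    have h1 := hδI _ hf'
    rw [map_sub, map_mul, hp, mul_zero, zero_sub, neg_eq_zero] at h1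
    exact h1
  obtain ⟨τ₁, hτ₁, hJ⟩ := hker f hδf
  have hδmo : δ (lup (mo n n₀)) ≠ 0 := by
    rw [hmo, map_mul, map_prod, map_pow, hupC, map_mul, map_prod]
    simp only [map_pow]
    exact mul_ne_zero (Finset.prod_ne_zero_iff.2 fun i _ => pow_ne_zero _ (hg i))
      (pow_ne_zero _ hϖ)
  refine ⟨lup (U.s * τ₁) * lup (mo n n₀), ?_, ?_⟩
  · rw [map_mul, map_mul lup, map_mul]
    exact mul_ne_zero (mul_ne_zero hs hτ₁) hδmo
  · have h1 : lup (U.s * τ₁) * lup (mo n n₀) * p =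
        lup (U.s * τ₁) * (lup (mo n n₀) * p - lup f) + lup (U.s * (τ₁ * f)) := by
      simp only [map_mul]
      ring
    rw [h1]
    exact Ig.add_mem (Ig.mul_mem_left _ hf') (hle _ hJ)

end Pool.Agent.Lib.MP_6a3dac_ag.LS
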