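import Pool.Agent.Lib.MP_6a3dac_ag.Mg.G063
import Pool.Agent.Lib.MP_6a3dac_ag.Mg.G062
import Pool.Agent.Lib.MP_6a3dac_ag.Mg.G058
import Pool.Agent.Lib.MP_6a3dac_ag.Mg.G027
import Pool.Agent.Lib.MP_6a3dac_ag.Mg.G022

/-!
# Regular models near a prime: logarithmically smooth points
-/

set_option autoImplicit false

namespace Pool.Agent.Lib.MP_6a3dac_ag.LS

open MvPolynomial CategoryTheory Limits AlgebraicGeometry NumberField IsDedekindDomain
open Pool.Agent.Lib.MP_6a3dac_ag.DNF Pool.Agent.Lib.MP_6a3dac_ag.Bert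
open Pool.Agent.Lib.MP_6a3dac_ag.Fam Pool.Agent.Lib.MP_6a3dac_ag.Tor

variable {E : Type} [Field E] [NumberField E] {m c l s : ℕ} {J : HomIdeal (𝓞 E) (m + c + 1)}

/-- TASK L6c -/
theorem hasModelAt_of_logOver (hgen : GenFibreSmooth J) {P : HeightOneSpectrum (𝓞 E)}
    {e : Fin l → Fin s → ℕ} {h : Fin l → locRing E P} (hh : ∀ j, h j ≠ 0)
    {K : Fin s → HomIdeal (𝓞 E) (m + c + 1)} (hP : LogOver P e h J K) :
    HasModelAt E P (hProjTo (bc (algebraMap (𝓞 E) E) J)) := by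
  classical
  obtain ⟨ϖ, hϖ⟩ := exists_unif (K := E) P
  have hval : ∀ j, ∃ (n : ℕ) (u : (locRing E P)ˣ),
      h j = ↑u * algebraMap (𝓞 E) (locRing E P) ϖ ^ n := fun j =>
    IsDiscreteValuationRing.eq_unit_mul_pow_irreducible (hh j) hϖ
  choose v η hv using hval
  obtain ⟨x, hx0, hxK⟩ := exists_const_mem (K := K) fun k => by
    obtain ⟨j, -, hj⟩ := hP.1 k
    exact ⟨h j, hh j, hj⟩
  obtain ⟨𝒢, h𝒢⟩ := exists_lcharts e v
  have h𝒢0 : 𝒢.Nonempty := by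
    obtain ⟨t, ht, -⟩ := h𝒢 Set.univ ⟨Set.mem_univ _, fun _ _ _ _ => Set.mem_univ _,
      fun _ => Or.inl (Set.mem_univ _)⟩ (fun _ => Set.mem_univ _) (Set.mem_univ _)
    exact ⟨_, ht.mem₀⟩
  obtain ⟨z, hz0, hz⟩ := exists_tanOver hgen
  have hLD : ∀ i, LocDom (dId (bc (algebraMap (𝓞 E) E) J) i) := fun i =>
    locDom_of_smoothPt (hgen.smoothPt i)
  obtain ⟨τ, _, p, f, h1, h2, h3, h4, h5, h6⟩ :=
    exists_components (bc (algebraMap (𝓞 E) E) J) hLD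
  have hM : ModelOn E {Q | Q = P ∨ z ∉ Q.asIdeal} (hProjTo (bc (algebraMap (𝓞 E) E) J)) := by
    refine ModelOn.of_finite f h4 h5 h6 fun j => ?_
    rw [h3 j]
    exact modelOn_component_log hLD (h1 j) hgen ⟨P, Or.inl rfl⟩
      (fun Q hQ => hQ.imp id (fun h => hz Q h)) hP hx0 hxK h𝒢 h𝒢0 hϖ
      (fun j => (η j).isUnit) hv
  refine hM.hasModelAt ((finite_mem_prime hz0).subset fun Q hQ => ?_) (Or.inl rfl)
  by_contra hzQ
  exact hQ (Or.inr hzQ)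

end Pool.Agent.Lib.MP_6a3dac_ag.LS
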