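import Pool.Agent.Lib.MP_6a3dac_ag.Mg.G064
import Pool.Agent.Lib.MP_6a3dac_ag.LS.L6c
import Pool.Agent.Lib.MP_6a3dac_ag.Mg.G022

/-!
# The uniform theorem
-/

set_option autoImplicit false

namespace Pool.Agent.Lib.MP_6a3dac_ag.LS

open MvPolynomial CategoryTheory Limits AlgebraicGeometry NumberField IsDedekindDomain
open Pool.Agent.Lib.MP_6a3dac_ag.DNF Pool.Agent.Lib.MP_6a3dac_ag.Bert
open Pool.Agent.Lib.MP_6a3dac_ag.Fam Pool.Agent.Lib.MP_6a3dac_ag.Tor

variable {R : Type} [CommRing R]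
  {m c l s : ℕ} {J : HomIdeal R (m + c + 1)} {e : Fin l → Fin s → ℕ} {h : Fin l → R}
  {K : Fin s → HomIdeal R (m + c + 1)}

/-- Models near a prime and isomorphisms. -/
theorem hasModelAt_congr {E : Type} [Field E] [NumberField E] {P : HeightOneSpectrum (𝓞 E)}
    {X Y : Scheme.{0}}
    {π : X ⟶ Spec (CommRingCat.of E)} {π' : Y ⟶ Spec (CommRingCat.of E)} (e : X ≅ Y)
    (he : e.hom ≫ π' = π) (h : HasModelAt E P π) : HasModelAt E P π' := by
  obtain ⟨U, Z, g, h1, h2, h3, h4, e', he'⟩ := h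
  exact ⟨U, Z, g, h1, h2, h3, h4, e' ≪≫ e, by rw [Iso.trans_hom, Category.assoc, he, he']⟩

/-- **The uniform theorem.** There is a positive integer `N`, a product of primes in `T`, such
that, for every number field, all members over the local rings at the primes which do not divide `N` are smooth and have regular
models near these primes, and every scheme which is a member at all these primes has a proper flat
model which is regular at all points not lying over the primes dividing `N`, and has a regular model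
if it has regular models near the primes dividing `N`. -/
theorem exists_uniform_log {T : Set ℕ} (hc : 1 ≤ c) (H : LogSmooth T J e h K) :
    ∃ N : ℕ, N ≠ 0 ∧ (∀ p : ℕ, p.Prime → p ∣ N → p ∈ T) ∧ ∀ (E : Type) [Field E] [NumberField E],
      (∀ P : HeightOneSpectrum (𝓞 E), (N : 𝓞 E) ∉ P.asIdeal →
        ∀ (X : Scheme.{0}) (π : X ⟶ Spec (CommRingCat.of E)),
          IsMember P J h π → Smooth π ∧ HasModelAt E P π) ∧
      ∀ (X : Scheme.{0}) (π : X ⟶ Spec (CommRingCat.of E)),
        (∀ P : HeightOneSpectrum (𝓞 E), (N : 𝓞 E) ∉ P.asIdeal → IsMember P J h π) →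
          ModelOn E {P | (N : 𝓞 E) ∉ P.asIdeal} π ∧
            ((∀ P : HeightOneSpectrum (𝓞 E), (N : 𝓞 E) ∈ P.asIdeal → HasModelAt E P π) →
              HasRegularModel E π) := by
  classical
  obtain ⟨N, ⟨hN, hNT⟩, HN⟩ := exists_logOver H
  refine ⟨N, hN, hNT, fun E _ _ => ?_⟩
  have key : ∀ P : HeightOneSpectrum (𝓞 E), (N : 𝓞 E) ∉ P.asIdeal →
      ∀ (X : Scheme.{0}) (π : X ⟶ Spec (CommRingCat.of E)),
        IsMember P J h π → Smooth π ∧ HasModelAt E P π := by
    intro P hP X π hX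
    obtain ⟨a, ha, i, hi⟩ := hX
    obtain ⟨J', hJ', hJE⟩ := exists_homIdeal_member (J := J) a
    have hgen := genFibreSmooth_member hc H a ha hJ'
    obtain ⟨K', hK'⟩ := HN E P hP a J' hJ'
    have h1 := hasModelAt_of_logOver hgen ha hK'
    have h2 : Smooth (hProjTo (bc (algebraMap (𝓞 E) E) J')) :=
      smooth_of_smoothPt _ fun k 𝔮 h𝔮 hle => hgen.smoothPt k 𝔮 h𝔮 hle
    rw [hJE] at h1 h2
    refine ⟨?_, hasModelAt_congr i hi h1⟩
    have h3 : π = i.inv ≫ hProjTo (bc ((algebraMap (locRing E P) E).comp a) J) := by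
      rw [← hi, Iso.inv_hom_id_assoc]
    rw [h3]
    infer_instance
  refine ⟨key, fun X π hX => ⟨?_, fun hS => hasRegularModel_of_forall_hasModelAt fun P => ?_⟩⟩
  · have hN' : (N : 𝓞 E) ≠ 0 := Nat.cast_ne_zero.2 hN
    obtain ⟨Q, hQ⟩ := exists_notMem_prime hN'
    obtain ⟨a, ha, hiso⟩ := hX Q hQ
    obtain ⟨J', hJ', hJE⟩ := exists_homIdeal_member (J := J) a
    rw [← hJE] at hiso
    obtain ⟨i, hi⟩ := hiso
    have h1 := modelOn_compl_of_forall_hasModelAt (J := J') (genFibreSmooth_member hc H a ha hJ')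
      (S := {P : HeightOneSpectrum (𝓞 E) | (N : 𝓞 E) ∈ P.asIdeal}) fun P hP =>
        hasModelAt_congr i.symm (by rw [Iso.symm_hom, Iso.inv_comp_eq, hi])
          (key P hP X π (hX P hP)).2
    exact ModelOn.of_iso h1 i hi
  · by_cases hP : (N : 𝓞 E) ∈ P.asIdeal
    · exact hS P hP
    · exact (key P hP X π (hX P hP)).2

end Pool.Agent.Lib.MP_6a3dac_ag.LS
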